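import Pool.Agent.Helper25_CN2.Stmts
import Pool.Agent.Helper25_CON.PDLem

/-! Squad CN2 (MP_6d18f4_al), module J_RAD. -/

set_option autoImplicit false

noncomputable section

namespace Pool.Agent.CN2.H99

open Pool.Agent.CON Pool.Agent.CN2

theorem j_rad (hVAL : E_VAL) : J_RAD := by
  intro M _ b C s x hb hC hs hx hev hx8 t ρ ⟨⟨z, hz, ht⟩, hρ, hρ4, hall⟩
  have hsp := hC.pos
  have htS : t ∈ AddSubgroup.closure C := by
    rw [ht]; exact AddSubgroup.add_mem _ hx (AddSubgroup.zsmul_mem _ hz 2)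
  obtain ⟨ρ', hρ'⟩ : ∃ ρ', ρ = 2 * ρ' := ⟨ρ / 2, by omega⟩
  have hρp : 0 < ρ' := by omega
  have hρodd : ¬ (2 : ℤ) ∣ ρ' := by omega
  have hdiv : ∀ y ∈ AddSubgroup.closure C, ρ ∣ b t y := fun y hy => hall y hy (hev y hy)
  -- the norm of t is 4 modulo 8
  obtain ⟨k, hk⟩ := hx8
  obtain ⟨m1, hm1⟩ := hev z hz
  obtain ⟨m2, hm2⟩ := hb.even z
  have htt : b t t = 8 * (k + m1 + m2) + 4 := by
    have : b t t = b x x + 4 * b x z + 4 * b z z := by
      rw [ht, hb.add_left, hb.add_right, hb.add_right, hb.zsmul_left, hb.zsmul_right,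
        hb.zsmul_right, hb.zsmul_left, hb.symm z x]
      ring
    rw [this, hk, hm1, hm2]; ring
  have hpos : 0 < b t t := by
    rcases (hb.nonneg t).lt_or_eq with h | h
    · exact h
    · omega
  obtain ⟨c, hc⟩ := hdiv t htS
  have hceven : (2 : ℤ) ∣ c := by
    have h4 : (2 : ℤ) ∣ ρ' * c := by
      have h5 : 2 * (ρ' * c) = 2 * (4 * (k + m1 + m2) + 2) := by
        rw [← mul_assoc, ← hρ', ← hc, htt]; ring
      omega
    rcases Int.Prime.dvd_mul' (p := 2) (by norm_num) (by exact_mod_cast h4) with h | h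
    · exact absurd (by exact_mod_cast h) hρodd
    · exact_mod_cast h
  obtain ⟨c', rfl⟩ := hceven
  have hc'pos : 0 < c' := by
    by_contra hcon
    push Not at hcon
    have : ρ * (2 * c') ≤ 0 := mul_nonpos_of_nonneg_of_nonpos hρ.le (by omega)
    omega
  refine ⟨?_, fun heq => ?_⟩
  · rw [hc]
    nlinarith
  -- equality
  obtain ⟨γ, hγ, hne⟩ : ∃ γ ∈ C, b t γ ≠ 0 := by
    by_contra hcon
    push Not at hcon
    have h0 : ∀ y ∈ AddSubgroup.closure C, b t y = 0 := by
      intro y hy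
      induction hy using AddSubgroup.closure_induction with
      | mem y hy => exact hcon y hy
      | zero => exact hb.zero_right _
      | add y z _ _ hy hz => rw [hb.add_right, hy, hz, add_zero]
      | neg y _ hy => rw [hb.neg_right, hy, neg_zero]
    rw [h0 t htS] at hpos
    exact lt_irrefl _ hpos
  have hγS : γ ∈ AddSubgroup.closure C := AddSubgroup.subset_closure hγ
  obtain ⟨m, hm⟩ := hdiv γ hγS
  obtain ⟨n, hn⟩ := (hVAL M b C s hb hC t htS).1 γ hγS
  have hneven : (2 : ℤ) ∣ n := by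
    have h4 : (2 : ℤ) ∣ s * n := by
      rw [← hn, hm, hρ']
      exact ⟨ρ' * m, by ring⟩
    rcases Int.Prime.dvd_mul' (p := 2) (by norm_num) (by exact_mod_cast h4) with h | h
    · exact absurd (by exact_mod_cast h) hs
    · exact_mod_cast h
  obtain ⟨n', rfl⟩ := hneven
  have hmn : ρ' * m = s * n' := by
    have : 2 * (ρ' * m) = 2 * (s * n') := by
      rw [← mul_assoc, ← hρ', ← hm, hn]; ring
    linarith
  have hcs := hb.cs t γ
  rw [hC.norm γ hγ, heq] at hcs
  have hsq : b t γ ^ 2 = 4 * (ρ' * s) * (m * n') := by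
    have : b t γ ^ 2 = b t γ * b t γ := sq _
    rw [this]
    nth_rewrite 1 [hm]
    rw [hn, hρ']; ring
  rw [hsq, hρ'] at hcs
  have hps : 0 < ρ' * s := mul_pos hρp hsp
  have hle : m * n' ≤ 2 := by
    by_contra hcon
    push Not at hcon
    nlinarith
  have hm0 : m ≠ 0 := by
    rintro rfl
    exact hne (by rw [hm]; ring)
  have hgt : 0 < m * n' := by
    have h1 : 0 < s * (m * n') := by
      have : s * (m * n') = ρ' * (m * m) := by
        calc s * (m * n') = m * (s * n') := by ring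
          _ = m * (ρ' * m) := by rw [hmn]
          _ = ρ' * (m * m) := by ring
      rw [this]
      exact mul_pos hρp (mul_self_pos.mpr hm0)
    exact (mul_pos_iff_of_pos_left hsp).mp h1
  have hpar : m % 2 = n' % 2 := by
    have h1 : (ρ' * m) % 2 = (s * n') % 2 := by rw [hmn]
    have h2 : ρ' % 2 = 1 := by omega
    have h3 : s % 2 = 1 := by omega
    rw [Int.mul_emod, h2, Int.mul_emod s, h3, one_mul, one_mul, Int.emod_emod_of_dvd _ (dvd_refl 2),
      Int.emod_emod_of_dvd _ (dvd_refl 2)] at h1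
    exact h1
  have h1 : m * n' = 1 := by
    rcases Int.emod_two_eq_zero_or_one m with h | h
    · obtain ⟨a, rfl⟩ : (2 : ℤ) ∣ m := Int.dvd_of_emod_eq_zero h
      obtain ⟨a', rfl⟩ : (2 : ℤ) ∣ n' := Int.dvd_of_emod_eq_zero (by rw [← hpar]; exact h)
      have : 2 * a * (2 * a') = 4 * (a * a') := by ring
      omega
    · obtain ⟨a, ha⟩ : ∃ a, m = 2 * a + 1 := ⟨m / 2, by omega⟩
      obtain ⟨a', ha'⟩ : ∃ a', n' = 2 * a' + 1 := ⟨n' / 2, by omega⟩
      have : m * n' = 2 * (2 * a * a' + a + a') + 1 := by rw [ha, ha']; ring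
      omega
  have hmn' : m = n' := by
    rcases Int.mul_eq_one_iff_eq_one_or_neg_one.mp h1 with ⟨h, h'⟩ | ⟨h, h'⟩
    · rw [h, h']
    · rw [h, h']
  have : ρ' = s := by
    rw [← hmn'] at hmn
    exact mul_right_cancel₀ hm0 hmn
  change ρ = 2 * s
  rw [hρ', this]

end Pool.Agent.CN2.H99

end
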