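import Pool.Agent.Helper25_CN2.Stmts
import Pool.Agent.Helper25_CON.PDLem

/-! Squad CN2 (MP_6d18f4_al), module K_E3A2: E_7 or E_8 and 3 A_2. -/

set_option autoImplicit false

noncomputable section

namespace Pool.Agent.CN2.H99

open Pool.Agent.CON Pool.Agent.CN2

theorem k_e3a2 (hSEA : K_SEA) (hPAR : X_PAR) (hNON : E_NON) (hRK : T_RK) : K_E3A2 := by
  intro M _ b k C s τ hb hCT hbad i0 i1 hne hall hE hs0 hA hs3
  obtain ⟨β, hβ, y2, hy2, hβy⟩ : ∃ α ∈ C i0, ∃ β ∈ C i0, b α β = s i0 := by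
    refine hNON M b (C i0) (s i0) hb (hCT.irr i0) ?_
    rw [hRK M b (C i0) (s i0) (τ i0) hb (hCT.irr i0) (hCT.ty i0)]
    rcases hE with h | h <;> rw [h] <;> simp [Ty.rk]
  have hty := hCT.ty i1
  rw [hA] at hty
  obtain ⟨-, v, ⟨hvC, hvv⟩, hInA⟩ := hty
  have hv01 : b (v 0) (v 1) = 3 := by rw [hvv 0 1 (by decide), hs3]
  have hv10 : b (v 1) (v 0) = 3 := by rw [hb.symm]; exact hv01
  have hv00 : b (v 0) (v 0) = 6 := by rw [(hCT.irr i1).norm _ (hvC 0), hs3]; norm_num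
  have hv11 : b (v 1) (v 1) = 6 := by rw [(hCT.irr i1).norm _ (hvC 1), hs3]; norm_num
  have hββ : b β β = 2 := by rw [(hCT.irr i0).norm _ hβ, hs0]; norm_num
  have horth : ∀ y ∈ AddSubgroup.closure (C i1), ∀ z ∈ AddSubgroup.closure (C i0), b y z = 0 :=
    hb.closure_orth fun x hx y hy => hCT.orth i1 i0 hne.symm x hx y hy
  have hv0S : v 0 ∈ AddSubgroup.closure (C i1) := AddSubgroup.subset_closure (hvC 0)
  have hv1S : v 1 ∈ AddSubgroup.closure (C i1) := AddSubgroup.subset_closure (hvC 1)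
  have hβS : β ∈ AddSubgroup.closure (C i0) := AddSubgroup.subset_closure hβ
  have hω : (2 : ℤ) • v 1 - v 0 ∈ AddSubgroup.closure (C i1) :=
    AddSubgroup.sub_mem _ (AddSubgroup.zsmul_mem _ hv1S _) hv0S
  rcases hSEA M b k C s τ hb hCT hbad i0 i1 β (v 0) hne hall hE hs0
    (by rw [hs3]; norm_num) hβ (hvC 0) with h | ⟨-, hnew⟩
  · rw [hs3] at h; norm_num at h
  refine hbad (hPAR M b (AddSubgroup.closure (C i1)) (AddSubgroup.closure (C i0)) (v 0) β
    ((2 : ℤ) • v 1 - v 0) 9 0 hb horth ?_ hv0S hβS hω (by norm_num) ⟨v 1, hv1S, ?_⟩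
    ⟨y2, AddSubgroup.subset_closure hy2, ?_⟩ ?_ ?_ (by norm_num) ?_)
  · rw [eq_top_iff]
    intro x _
    rw [← AddSubgroup.closure_union]
    refine AddSubgroup.closure_mono ?_ (hCT.gen x)
    intro y hy
    obtain ⟨i, hi⟩ := Set.mem_iUnion.mp hy
    rcases hall i with rfl | rfl
    · exact Or.inr hi
    · exact Or.inl hi
  · rw [hv01]; norm_num
  · rw [hβy, hs0]; norm_num
  · have h0 := horth _ hv0S _ hβS
    rw [hb.add_left, hb.add_right, hb.add_right, hv00, hββ, h0, hb.symm β (v 0), h0]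
    norm_num
  · have hgen : ∀ i : Fin 2, 2 * (9 : ℤ) ∣ b (v i) ((2 : ℤ) • v 1 - v 0) - 9 * b (v i) (v 0) := by
      intro i
      rw [hb.sub_right, hb.zsmul_right]
      fin_cases i
      · change 2 * (9 : ℤ) ∣ 2 * b (v 0) (v 1) - b (v 0) (v 0) - 9 * b (v 0) (v 0)
        rw [hv01, hv00]; norm_num
      · change 2 * (9 : ℤ) ∣ 2 * b (v 1) (v 1) - b (v 1) (v 0) - 9 * b (v 1) (v 0)
        rw [hv11, hv10]; norm_num
    intro y hy
    induction hy using AddSubgroup.closure_induction with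
    | mem y hy =>
      rcases hInA y hy with ⟨i, rfl | rfl⟩ | ⟨i, j, -, rfl⟩
      · exact hgen i
      · rw [hb.neg_left, hb.neg_left]
        have := (dvd_neg (a := 2 * (9 : ℤ))).mpr (hgen i)
        have e : -(b (v i) ((2 : ℤ) • v 1 - v 0) - 9 * b (v i) (v 0)) =
          -b (v i) ((2 : ℤ) • v 1 - v 0) - 9 * -b (v i) (v 0) := by ring
        rw [e] at this; exact this
      · rw [hb.sub_left, hb.sub_left]
        have := dvd_sub (hgen i) (hgen j)
        have e : (b (v i) ((2 : ℤ) • v 1 - v 0) - 9 * b (v i) (v 0)) -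
          (b (v j) ((2 : ℤ) • v 1 - v 0) - 9 * b (v j) (v 0)) =
          b (v i) ((2 : ℤ) • v 1 - v 0) - b (v j) ((2 : ℤ) • v 1 - v 0) -
            9 * (b (v i) (v 0) - b (v j) (v 0)) := by ring
        rw [e] at this; exact this
    | zero => rw [hb.zero_left, hb.zero_left]; norm_num
    | add y z _ _ hy hz =>
      rw [hb.add_left, hb.add_left]
      have := dvd_add hy hz
      have e : (b y ((2 : ℤ) • v 1 - v 0) - 9 * b y (v 0)) +
          (b z ((2 : ℤ) • v 1 - v 0) - 9 * b z (v 0)) =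
          b y ((2 : ℤ) • v 1 - v 0) + b z ((2 : ℤ) • v 1 - v 0) -
            9 * (b y (v 0) + b z (v 0)) := by ring
      rw [e] at this; exact this
    | neg y _ hy =>
      rw [hb.neg_left, hb.neg_left]
      have := (dvd_neg (a := 2 * (9 : ℤ))).mpr hy
      have e : -(b y ((2 : ℤ) • v 1 - v 0) - 9 * b y (v 0)) =
          -b y ((2 : ℤ) • v 1 - v 0) - 9 * -b y (v 0) := by ring
      rw [e] at this; exact this
  · intro t ρ ht
    rw [add_comm] at ht
    obtain ⟨t0, ht0, h⟩ := hnew t ρ ht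
    have h0 : b t0 ((2 : ℤ) • v 1 - v 0) = 0 := by
      rw [hb.symm]; exact horth _ hω _ ht0
    have h1 : b (v 0) ((2 : ℤ) • v 1 - v 0) = 0 := by
      rw [hb.sub_right, hb.zsmul_right, hv01, hv00]; norm_num
    rcases h with rfl | rfl
    · rw [hb.add_left, h0, h1]; norm_num
    · rw [hb.sub_left, h0, h1]; norm_num

end Pool.Agent.CN2.H99

end
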